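import Pool.Agent.helper26.AP.SpecQ

set_option autoImplicit false

/-!
# Row ap:QU1 (helper45): small slices, the bound from MU1
-/

namespace Pool.Agent.AP

open Finset NumberField Pool.Agent.helper3.FT Pool.Agent.helper47.RA Pool.Agent.T5

theorem QU1 (hQCN : QCN_stmt) (hQSM : QSM_stmt) (hQA1 : QA1_stmt) (hQP1 : QP1_stmt) : QU1_stmt := by
  intro p hp h5 hAE hM1 ε hε
  obtain ⟨C, hC, hMU⟩ := hM1 ε hε
  refine ⟨4 * C, by linarith, fun M Y hM hY hYM => ?_⟩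
  have hM0 : (0 : ℝ) < M := by linarith
  have hY0 : (0 : ℝ) < Y := by linarith
  have hE : (0 : ℝ) ≤ (M * Y) ^ ε := Real.rpow_nonneg (by positivity) _
  set A : ℝ := Y * √M with hA
  set B : ℝ := Y * √(Y ^ p / M) with hB
  have hA0 : 0 ≤ A := by positivity
  have hB0 : 0 ≤ B := by positivity
  have hfact : ∀ r ∈ Ioc 0 ⌊Y⌋₊, {t : ℕ × ℕ × ℤ | MS p M r r 1 (Y / r) t}.Finite ∧
      ({t : ℕ × ℕ × ℤ | MS p M r r 1 (Y / r) t}.ncard : ℝ) ≤
        C * (M * Y) ^ ε * (A + 2 * B) * (1 / (r : ℝ) ^ 2) := by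
    intro r hr
    rw [mem_Ioc] at hr
    have hr1 : 1 ≤ r := hr.1
    have hr0 : (0 : ℝ) < r := by exact_mod_cast hr.1
    have hrY : (r : ℝ) ≤ Y := (Nat.le_floor_iff hY0.le).1 hr.2
    have hZ : 1 ≤ Y / r := (one_le_div hr0).2 hrY
    obtain ⟨hf, hn⟩ := hMU M (Y / r) r r 1 (by linarith) hZ hr1 hr1 le_rfl dvd_rfl
    refine ⟨hf, hn.trans ?_⟩
    have e1 : M * (Y / r) * r * ((1 : ℕ) : ℝ) = M * Y := by
      rw [Nat.cast_one]
      field_simp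
    rw [e1]
    have hV := (hQP1 p M Y r 1 h5 hM0 hY0 hr1 le_rfl).1
    have h1 : Y / r * √M / (r * ((1 : ℕ) : ℝ) ^ 2) + Y / r * VV p M r (Y / r) ≤
        (A + 2 * B) * (1 / (r : ℝ) ^ 2) := by
      have h2 : Y / r * VV p M r (Y / r) ≤ Y / r * (2 * √(Y ^ p / M) / r) :=
        mul_le_mul_of_nonneg_left hV (by positivity)
      have h3 : Y / r * √M / (r * ((1 : ℕ) : ℝ) ^ 2) = A * (1 / (r : ℝ) ^ 2) := by
        rw [hA, Nat.cast_one]
        field_simp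
      have h4 : Y / r * (2 * √(Y ^ p / M) / r) = 2 * B * (1 / (r : ℝ) ^ 2) := by
        rw [hB]
        field_simp
      rw [h3]
      rw [h4] at h2
      linarith
    calc C * (M * Y) ^ ε * (Y / r * √M / (r * ((1 : ℕ) : ℝ) ^ 2) + Y / r * VV p M r (Y / r))
        ≤ C * (M * Y) ^ ε * ((A + 2 * B) * (1 / (r : ℝ) ^ 2)) :=
          mul_le_mul_of_nonneg_left h1 (mul_nonneg (by linarith) hE)
      _ = C * (M * Y) ^ ε * (A + 2 * B) * (1 / (r : ℝ) ^ 2) := by ring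
  have hcov := hQCN Q4 (ℕ × ℕ × ℤ) ℕ {t : Q4 | Bas p M Y t ∧ IsFund (dp p t)} (Ioc 0 ⌊Y⌋₊)
    (fun r => {t : ℕ × ℕ × ℤ | MS p M r r 1 (Y / r) t}) (fun r b => (r, b))
    (fun r => C * (M * Y) ^ ε * (A + 2 * B) * (1 / (r : ℝ) ^ 2)) hfact (by
      rintro ⟨r, z, y, x⟩ ⟨ht, -⟩
      obtain ⟨hr1, -, -, hms⟩ := hQA1 p M Y r z y x h5 ht
      refine ⟨r, ?_, (z, y, x), hms, rfl⟩
      rw [mem_Ioc]
      refine ⟨hr1, Nat.le_floor ?_⟩
      have h1 := ht.Y2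
      have h2 : (1 : ℝ) ≤ z := by exact_mod_cast ht.z1
      have h3 : (0 : ℝ) ≤ r := Nat.cast_nonneg _
      have h4 : (r : ℝ) * 1 ≤ r * z := mul_le_mul_of_nonneg_left h2 h3
      have h5 : (r : ℝ) * z ≤ Y := h1
      linarith)
  rw [hAE M Y hM hY hYM]
  refine hcov.2.trans ?_
  rw [← Finset.mul_sum]
  have hs := hQSM.2.1 ⌊Y⌋₊
  calc C * (M * Y) ^ ε * (A + 2 * B) * ∑ i ∈ Ioc 0 ⌊Y⌋₊, 1 / (i : ℝ) ^ 2
      ≤ C * (M * Y) ^ ε * (A + 2 * B) * 2 :=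
        mul_le_mul_of_nonneg_left hs (mul_nonneg (mul_nonneg (by linarith) hE) (by linarith))
    _ ≤ C * (M * Y) ^ ε * (2 * A + 2 * B) * 2 := by
        refine mul_le_mul_of_nonneg_right (mul_le_mul_of_nonneg_left (by linarith)
          (mul_nonneg (by linarith) hE)) (by norm_num)
    _ = 4 * C * (M * Y) ^ ε * (A + B) := by ring

end Pool.Agent.AP
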