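import Pool.Agent.helper3.AP.SpecG

set_option autoImplicit false

/-!
# Row ap:GAT (helper45): the trivial bound
-/

namespace Pool.Agent.AP

open Finset NumberField Pool.Agent.helper3.FT Pool.Agent.helper47.RA Pool.Agent.T5

theorem GAT : ATP_stmt := by
  intro p ε hε
  obtain ⟨C, hC, hcard⟩ := card_ideals_le ε hε
  refine ⟨C, hC, fun N Y hN hY => ?_⟩
  have hY0 : (0 : ℝ) ≤ Y := by linarith
  have hpos : (0 : ℝ) ≤ C * Y ^ (1 + ε) := mul_nonneg (by linarith) (Real.rpow_nonneg hY0 _)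
  have h1 : ∀ D ∈ DN N, (cAp p D Y : ℝ) ≤ C * Y ^ (1 + ε) := by
    intro D _
    unfold cAp
    split_ifs with h
    · have hB : 1 ≤ ⌊Y⌋₊ := Nat.le_floor (by simpa using hY)
      obtain ⟨hf, hn⟩ := hcard h.some.K h.some.Q.ω h.some.Q.t h.some.Q.k h.some.Q.D h.some.Q.hD
        h.some.Q.ht h.some.Q.hk h.some.Q.hω h.some.Q.hspan ⌊Y⌋₊ hB
      have hsub : IAp p h.some.K Y ⊆
          {I : Ideal (𝓞 h.some.K) | 0 < Ideal.absNorm I ∧ Ideal.absNorm I ≤ ⌊Y⌋₊} := by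
        rintro a ⟨ha0, -, -, -, -, hY2⟩
        exact ⟨Nat.pos_of_ne_zero (fun h => ha0 (Ideal.absNorm_eq_zero_iff.1 h)), Nat.le_floor hY2⟩
      have h2 : ((IAp p h.some.K Y).ncard : ℝ) ≤
          (({I : Ideal (𝓞 h.some.K) | 0 < Ideal.absNorm I ∧ Ideal.absNorm I ≤ ⌊Y⌋₊}.ncard : ℕ) : ℝ) := by
        exact_mod_cast Set.ncard_le_ncard hsub hf
      refine h2.trans (hn.trans ?_)
      exact mul_le_mul_of_nonneg_left (Real.rpow_le_rpow (Nat.cast_nonneg _) (Nat.floor_le hY0)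
        (by linarith)) (by linarith)
    · simpa using hpos
  have h2 : ((DN N).card : ℝ) ≤ N := by
    have h5 : (DN N).card ≤ (Icc (-⌊N⌋) (-1)).card := by
      classical
      exact Finset.card_le_card (Finset.filter_subset _ _)
    rw [Int.card_Icc] at h5
    have h0 : 0 ≤ ⌊N⌋ := Int.floor_nonneg.2 (by linarith)
    have h6 : ((DN N).card : ℤ) ≤ ⌊N⌋ := by omega
    have h7 : ((DN N).card : ℝ) ≤ (⌊N⌋ : ℝ) := by exact_mod_cast h6
    exact h7.trans (Int.floor_le N)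
  calc AA p N Y = ∑ D ∈ DN N, (cAp p D Y : ℝ) := rfl
    _ ≤ ∑ D ∈ DN N, C * Y ^ (1 + ε) := Finset.sum_le_sum h1
    _ = (DN N).card * (C * Y ^ (1 + ε)) := by rw [Finset.sum_const, nsmul_eq_mul]
    _ ≤ N * (C * Y ^ (1 + ε)) := mul_le_mul_of_nonneg_right h2 hpos
    _ = C * Y ^ ε * (N * Y) := by
      rw [Real.rpow_add (by linarith), Real.rpow_one]
      ring

end Pool.Agent.AP
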